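import Pool.Agent.Helper7.DN.Sup1

/-!
# Project DN, block SUP: the elements of `L k` which are fixed by the braid group
-/

namespace Pool.Agent.Helper7.DN

open Pool.Agent.Helper38.BN Pool.Agent.Helper20.DN

variable {k : ℕ}

lemma aL_ge {j : ℕ} (hj : ¬ j < k) (x : L k) : aL j x = x := by
  unfold aL; rw [dif_neg hj]; rfl

lemma wA_ge {j : ℕ} (hj : ¬ j < k) (x : W k) : wA j x = x := by
  unfold wA; rw [dif_neg hj]; rfl

lemma aL_mu' (j : ℕ) (w : W k) : aL j (muL w) = muL (wA j w) := by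
  by_cases hj : j < k
  · exact aL_mu hj w
  · rw [aL_ge hj, wA_ge hj]

/-- the action of braid words on the elements `muL w` -/
lemma lift_mu (b : FreeGroup ℕ) : ∀ w : W k,
    (FreeGroup.lift (aL : ℕ → MulAut (L k)) b) (muL w) =
      muL ((FreeGroup.lift (wA : ℕ → MulAut (W k)) b) w) := by
  induction b using FreeGroup.induction_on with
  | C1 => intro w; simp
  | of j => intro w; simpa using aL_mu' j w
  | inv_of j h =>
    intro w
    simp only [map_inv, FreeGroup.lift_apply_of]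
    rw [MulAut.inv_apply, MulEquiv.symm_apply_eq, aL_mu', MulAut.apply_inv_self]
  | mul x y hx hy =>
    intro w
    rw [map_mul, map_mul, MulAut.mul_apply, MulAut.mul_apply, hy, hx]

/-- braid words fix the elements which are fixed by the generators -/
lemma lift_fix {x : L k} (h : ∀ j, j < k → aL j x = x) (b : FreeGroup ℕ) :
    (FreeGroup.lift (aL : ℕ → MulAut (L k)) b) x = x := by
  have h' : ∀ j, aL j x = x := fun j => by
    by_cases hj : j < k
    · exact h j hj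
    · exact aL_ge hj x
  induction b using FreeGroup.induction_on with
  | C1 => simp
  | of j => simpa using h' j
  | inv_of j _ =>
    simp only [map_inv, FreeGroup.lift_apply_of]
    rw [MulAut.inv_apply, MulEquiv.symm_apply_eq, h']
  | mul x y hx hy => rw [map_mul, MulAut.mul_apply, hy, hx]

lemma lift_zpow (hk : 1 ≤ k) (b : FreeGroup ℕ) {w : W k} (h : w ∈ Subgroup.zpowers (RW k)) :
    (FreeGroup.lift (wA : ℕ → MulAut (W k)) b) w = w := by
  have hR : ∀ j, wA j (RW k) = RW k := fun j => by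
    by_cases hj : j < k
    · exact wA_R hj
    · exact wA_ge hj _
  obtain ⟨i, rfl⟩ := Subgroup.mem_zpowers_iff.1 h
  induction b using FreeGroup.induction_on with
  | C1 => simp
  | of j => simp [hR]
  | inv_of j _ =>
    simp only [map_inv, FreeGroup.lift_apply_of]
    rw [MulAut.inv_apply, MulEquiv.symm_apply_eq, map_zpow, hR]
  | mul x y hx hy => rw [map_mul, MulAut.mul_apply, hy, hx]

/-- the automorphism of `L k` maps `closure (muL '' S)` to `closure (muL '' S')` -/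
lemma lift_closure (b : FreeGroup ℕ) {S : Set (W k)} {x : L k}
    (hx : x ∈ Subgroup.closure (muL '' S)) :
    (FreeGroup.lift (aL : ℕ → MulAut (L k)) b) x ∈ Subgroup.closure
      (muL '' ((FreeGroup.lift (wA : ℕ → MulAut (W k)) b) '' S)) := by
  have h1 : Subgroup.closure (muL '' S) ≤ (Subgroup.closure
      (muL '' ((FreeGroup.lift (wA : ℕ → MulAut (W k)) b) '' S))).comap
      (FreeGroup.lift (aL : ℕ → MulAut (L k)) b).toMonoidHom := by
    rw [Subgroup.closure_le]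
    rintro _ ⟨g, hg, rfl⟩
    have h2 := lift_mu b g
    refine Subgroup.mem_comap.2 ?_
    change (FreeGroup.lift (aL : ℕ → MulAut (L k)) b) (muL g) ∈ Subgroup.closure
      (muL '' ((FreeGroup.lift (wA : ℕ → MulAut (W k)) b) '' S))
    rw [h2]
    exact Subgroup.subset_closure ⟨_, ⟨g, hg, rfl⟩, rfl⟩
  exact h1 hx

/-- (L4) in `K k` -/
theorem fixBrK' (hk : 2 ≤ k) {x : L k} (hx : x ∈ K k) (h : ∀ j, j < k → aL j x = x) :
    (⟨x, hx⟩ : K k) ∈ KS (Subgroup.zpowers (RW k) : Set (W k)) := by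
  obtain ⟨S, hS, hxS⟩ := exists_KS (⟨x, hx⟩ : K k)
  obtain ⟨m, hm⟩ := exists_ball' hS
  obtain ⟨b, hb⟩ := exists_move (k := k) (by omega)
    (S := {s | s ∈ S ∧ s ∉ Subgroup.zpowers (RW k)})
    (hS.subset fun s hs => hs.1) (ball_fin k m) (fun s hs => hs.2)
  have h1 := lift_closure b (mem_KS.1 hxS)
  have h2 := lift_fix h b
  change (FreeGroup.lift (aL : ℕ → MulAut (L k)) b) x ∈ _ at h1
  rw [h2] at h1
  have h3 : (⟨x, hx⟩ : K k) ∈ KS ((FreeGroup.lift (wA : ℕ → MulAut (W k)) b) '' S) := mem_KS.2 h1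
  have h4 := rho_KS (btw_ball k m) h3
  rw [rho_id (btw_ball k m) (hm m le_rfl) hxS] at h4
  refine KS_mono ?_ h4
  rintro _ ⟨⟨s, hs, rfl⟩, hs2⟩
  by_cases h5 : s ∈ Subgroup.zpowers (RW k)
  · rw [lift_zpow (by omega) b h5]; exact h5
  · exact absurd hs2 (hb s ⟨hs, h5⟩)

/-- the subgroup generated by the elements `R^i y R^-i` (the same as `Helper20.DN.KR`) -/
def KRL (k : ℕ) : Subgroup (L k) := Subgroup.closure (Set.range fun i : ℤ => muL (RW k ^ i))

lemma mem_KRL {x : L k} (hx : x ∈ K k) :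
    x ∈ KRL k ↔ (⟨x, hx⟩ : K k) ∈ KS (Subgroup.zpowers (RW k) : Set (W k)) := by
  have e : (muL '' (Subgroup.zpowers (RW k) : Set (W k)) : Set (L k)) =
      Set.range fun i : ℤ => muL (RW k ^ i) := by
    ext y
    constructor
    · rintro ⟨g, hg, rfl⟩
      obtain ⟨i, rfl⟩ := Subgroup.mem_zpowers_iff.1 hg
      exact ⟨i, rfl⟩
    · rintro ⟨i, rfl⟩
      exact ⟨RW k ^ i, Subgroup.mem_zpowers_iff.2 ⟨i, rfl⟩, rfl⟩
  rw [mem_KS, e]
  rfl

lemma KRL_le (k : ℕ) : KRL k ≤ K k := by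
  unfold KRL
  rw [Subgroup.closure_le]
  rintro _ ⟨i, rfl⟩
  exact mu_mem _

/-- (L4) -/
theorem fixBrL (hk : 2 ≤ k) {x : L k} (hx : x ∈ K k) (h : ∀ j, j < k → aL j x = x) :
    x ∈ KRL k := (mem_KRL hx).2 (fixBrK' hk hx h)

/-- (L4) for `L k` -/
theorem fixBr' (hk : 2 ≤ k) {x : L k} (h : ∀ j, j < k → aL j x = x) :
    ∃ κ ∈ KRL k, ∃ i : ℤ, x = rL k ^ i * κ := by
  have h1 : toW k x ∈ Subgroup.zpowers (RW k) := by
    apply wfix (by omega)
    intro j hj
    rw [← toW_aL hj, h j hj]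
  obtain ⟨i, hi⟩ := Subgroup.mem_zpowers_iff.1 h1
  have h2 : (rL k ^ i)⁻¹ * x ∈ K k := by
    rw [mem_K, map_mul, map_inv, map_zpow, toW_r, hi, inv_mul_cancel]
  refine ⟨(rL k ^ i)⁻¹ * x, fixBrL hk h2 fun j hj => ?_, i, by group⟩
  rw [map_mul, map_inv, map_zpow, aL_r, h j hj]

/-- the image of `KRL k` under `e` is killed by the homomorphism of `exists_freeR` -/
theorem e_kill (hk : 2 ≤ k) {φ : K k →* FreeGroup ℤ}
    (hφ : ∀ g, g ∉ Subgroup.zpowers (RW k) → φ (muK g) = 1) {x : L k} (hx : x ∈ KRL k) :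
    ∃ hx' : eL k x ∈ K k, φ ⟨eL k x, hx'⟩ = 1 := by
  unfold KRL at hx
  induction hx using Subgroup.closure_induction with
  | mem y hy =>
    obtain ⟨i, rfl⟩ := hy
    obtain ⟨κ, hκ, hκ2⟩ := eL_mu (k := k) (by omega) (RW k ^ i)
    have hR : wA 0 (RW k ^ i) = RW k ^ i := by rw [map_zpow, wA_R (by omega)]
    rw [hR] at hκ2
    have hm : eL k (muL (RW k ^ i)) ∈ K k := by
      rw [hκ2]
      exact Subgroup.mul_mem _ (Subgroup.mul_mem _ hκ (mu_mem _)) (Subgroup.inv_mem _ hκ)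
    refine ⟨hm, ?_⟩
    have e : (⟨eL k (muL (RW k ^ i)), hm⟩ : K k) =
        ⟨κ, hκ⟩ * muK (RW k ^ i * (xW 0 * xW 1)) * (⟨κ, hκ⟩ : K k)⁻¹ := Subtype.ext hκ2
    have h1 : φ (muK (RW k ^ i * (xW 0 * xW 1))) = 1 := by
      apply hφ
      intro h
      apply x01_not hk
      have h2 := Subgroup.mul_mem _ (Subgroup.inv_mem _ (Subgroup.zpow_mem _
        (Subgroup.mem_zpowers (RW k)) i)) h
      rwa [inv_mul_cancel_left] at h2
    rw [e, map_mul, map_mul, h1, mul_one, map_inv, mul_inv_cancel]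
  | one =>
    refine ⟨by rw [map_one]; exact Subgroup.one_mem _, ?_⟩
    have e : (⟨eL k 1, by rw [map_one]; exact Subgroup.one_mem _⟩ : K k) = 1 :=
      Subtype.ext (map_one _)
    rw [e, map_one]
  | mul y z _ _ hy hz =>
    obtain ⟨hy1, hy2⟩ := hy
    obtain ⟨hz1, hz2⟩ := hz
    have hm : eL k (y * z) ∈ K k := by rw [map_mul]; exact Subgroup.mul_mem _ hy1 hz1
    refine ⟨hm, ?_⟩
    have e : (⟨eL k (y * z), hm⟩ : K k) = ⟨eL k y, hy1⟩ * ⟨eL k z, hz1⟩ :=
      Subtype.ext (map_mul _ _ _)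
    rw [e, map_mul, hy2, hz2, mul_one]
  | inv y _ hy =>
    obtain ⟨hy1, hy2⟩ := hy
    have hm : eL k y⁻¹ ∈ K k := by rw [map_inv]; exact Subgroup.inv_mem _ hy1
    refine ⟨hm, ?_⟩
    have e : (⟨eL k y⁻¹, hm⟩ : K k) = (⟨eL k y, hy1⟩ : K k)⁻¹ := Subtype.ext (map_inv _ _)
    rw [e, map_inv, hy2, inv_one]

/-- (L5) -/
theorem e_fix' (hk : 2 ≤ k) {x : L k} (hx : x ∈ KRL k) (h : eL k x = x) : x = 1 := by
  obtain ⟨φ, hφ1, hφ2⟩ := exists_freeR (k := k) fun n => RW_pow (by omega)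
  obtain ⟨hx1, hx2⟩ := e_kill hk hφ2 hx
  have hxK : x ∈ K k := KRL_le k hx
  have h1 : φ ⟨x, hxK⟩ = 1 := by
    rw [← hx2]
    congr 1
    exact Subtype.ext h.symm
  have h2 : (FreeGroup.lift (fun i : ℤ => (muK (RW k ^ i) : K k))) (φ ⟨x, hxK⟩) = ⟨x, hxK⟩ := by
    refine KS_eq (f := (FreeGroup.lift (fun i : ℤ => (muK (RW k ^ i) : K k))).comp φ)
      (f' := MonoidHom.id _) ?_ ((mem_KRL hxK).1 hx)
    rintro g hg
    obtain ⟨i, rfl⟩ := Subgroup.mem_zpowers_iff.1 hg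
    rw [MonoidHom.comp_apply, hφ1, FreeGroup.lift_apply_of, MonoidHom.id_apply]
  rw [h1, map_one] at h2
  exact (congrArg Subtype.val h2).symm

end Pool.Agent.Helper7.DN
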