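import Pool.Agent.Helper7.DN.Sup3

/-!
# Project DN, block SUP: the main lemma (Z), part 2: the stable conjugator
-/

namespace Pool.Agent.Helper7.DN

open Pool.Agent.Helper38.BN Pool.Agent.Helper20.DN

variable {k : ℕ}

/-! ### supports of `cr n x` -/

lemma yn_one (k : ℕ) : (yn 1 : K k) = muK 1 := by
  apply Subtype.ext
  change rL k ^ (1 : ℤ) * (RL k ^ (1 : ℤ))⁻¹ = muL 1
  rw [zpow_one, zpow_one, rL_eq, mul_inv_cancel_right, mu_one]

lemma yn_neg_one (k : ℕ) : (yn (-1) : K k) = (muK (RW k)⁻¹)⁻¹ := by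
  apply Subtype.ext
  change rL k ^ (-1 : ℤ) * (RL k ^ (-1 : ℤ))⁻¹ = (muL (RW k)⁻¹)⁻¹
  rw [zpow_neg_one, zpow_neg_one, inv_inv, rL_eq, muL, map_inv]
  change _ = ((RL k)⁻¹ * yL * ((RL k)⁻¹)⁻¹)⁻¹
  group

/-- if `P` contains `1` and is closed under `R`, then `cr n` preserves `KS P`, `n ≥ 0` -/
lemma crP {P : Set (W k)} (h1 : (1 : W k) ∈ P) (hP : ∀ g ∈ P, RW k * g ∈ P) {x : K k}
    (hx : x ∈ KS P) (n : ℕ) : cr n x ∈ KS P := by
  induction n with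
  | zero => rw [Nat.cast_zero, cr_zero]; exact hx
  | succ n ih =>
    have e : ((n + 1 : ℕ) : ℤ) = 1 + n := by push_cast; ring
    rw [e, cr_add]
    refine KS_le (f := (cr 1 : MulAut (K k)).toMonoidHom) (fun g hg => ?_) ih
    change cr 1 (muK g) ∈ _
    rw [cr_mu, yn_one, zpow_one]
    exact Subgroup.mul_mem _ (Subgroup.mul_mem _ (muK_mem h1) (muK_mem (hP g hg)))
      (Subgroup.inv_mem _ (muK_mem h1))

/-- if `P` contains `1` and is closed under `R⁻¹`, then `cr (-n)` preserves `KS P`, `n ≥ 0` -/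
lemma crM {P : Set (W k)} (h1 : (1 : W k) ∈ P) (hP : ∀ g ∈ P, (RW k)⁻¹ * g ∈ P) {x : K k}
    (hx : x ∈ KS P) (n : ℕ) : cr (-n) x ∈ KS P := by
  have hR : (RW k)⁻¹ ∈ P := by simpa using hP 1 h1
  induction n with
  | zero => rw [Nat.cast_zero, neg_zero, cr_zero]; exact hx
  | succ n ih =>
    have e : (-((n + 1 : ℕ) : ℤ)) = -1 + -n := by push_cast; ring
    rw [e, cr_add]
    refine KS_le (f := (cr (-1) : MulAut (K k)).toMonoidHom) (fun g hg => ?_) ih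
    change cr (-1) (muK g) ∈ _
    rw [cr_mu, yn_neg_one, zpow_neg_one]
    exact Subgroup.mul_mem _ (Subgroup.mul_mem _ (Subgroup.inv_mem _ (muK_mem hR))
      (muK_mem (hP g hg))) (Subgroup.inv_mem _ (Subgroup.inv_mem _ (muK_mem hR)))

/-- for large `|n|` the element `cr n c` is killed by the deletion -/
lemma rho_cr (hk : 1 ≤ k) {m : ℕ} {X : Set (W k)} (hX : Btw k m X) (c : K k) :
    ∃ N : ℕ, ∀ n : ℤ, N ≤ n.natAbs → rho hX (cr n c) = 1 := by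
  obtain ⟨S, hS, hc⟩ := exists_KS c
  have hXf : X.Finite := (ball_fin k m).subset fun w hw => hX.2 w hw
  obtain ⟨N, hN⟩ := off_pow (g := RW k) (fun n => RW_pow hk) hS hXf
  refine ⟨N, fun n hn => ?_⟩
  have h1 : rho hX (cj (sW k (RW k ^ n)) c) = 1 := by
    refine rho_one hX ?_ (cj_sW_KS (RW k ^ n) hc)
    rintro _ ⟨s, hs, rfl⟩
    exact hN n hn s hs
  rw [cr_eq, map_mul, map_mul, h1, mul_one, map_inv, mul_inv_cancel]

/-! ### the iteration -/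

/-- `κ * cr J κ * ⋯ * cr ((n-1) J) κ` -/
def PP (κ : K k) (J : ℕ) : ℕ → K k
  | 0 => 1
  | n + 1 => PP κ J n * cr ((n * J : ℕ) : ℤ) κ

/-- `cr (-J) κ⁻¹ * ⋯ * cr (-n J) κ⁻¹` -/
def QQ (κ : K k) (J : ℕ) : ℕ → K k
  | 0 => 1
  | n + 1 => QQ κ J n * cr (-(((n + 1) * J : ℕ) : ℤ)) κ⁻¹

lemma PP_NT {X : Set (W k)} {κ c : K k} {J : ℕ} (h : κ * cr J c * c⁻¹ ∈ NT X) (n : ℕ) :
    PP κ J n * cr ((n * J : ℕ) : ℤ) c * c⁻¹ ∈ NT X := by
  induction n with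
  | zero =>
    rw [zero_mul, Nat.cast_zero, cr_zero]
    simp only [PP, one_mul, mul_inv_cancel]
    exact Subgroup.one_mem _
  | succ n ih =>
    obtain ⟨N, hN⟩ : ∃ N : ℤ, N = ((n * J : ℕ) : ℤ) := ⟨_, rfl⟩
    have e : (((n + 1) * J : ℕ) : ℤ) = N + J := by rw [hN]; push_cast; ring
    have h2 : PP κ J (n + 1) = PP κ J n * cr N κ := by rw [hN]; rfl
    rw [← hN] at ih
    rw [e, h2, cr_add]
    have h3 := Subgroup.Normal.conj_mem (inferInstance : (NT X).Normal) _ (NT_cr N h) (PP κ J n)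
    have h4 := Subgroup.mul_mem _ h3 ih
    have e2 : PP κ J n * cr N (κ * cr J c * c⁻¹) * (PP κ J n)⁻¹ * (PP κ J n * cr N c * c⁻¹) =
        PP κ J n * cr N κ * cr N (cr J c) * c⁻¹ := by
      rw [map_mul, map_mul, map_inv]
      group
    rwa [e2] at h4

lemma QQ_NT {X : Set (W k)} {κ c : K k} {J : ℕ} (h : κ * cr J c * c⁻¹ ∈ NT X) (n : ℕ) :
    QQ κ J n * cr (-((n * J : ℕ) : ℤ)) c * c⁻¹ ∈ NT X := by
  induction n with
  | zero =>
    rw [zero_mul, Nat.cast_zero, neg_zero, cr_zero]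
    simp only [QQ, one_mul, mul_inv_cancel]
    exact Subgroup.one_mem _
  | succ n ih =>
    obtain ⟨N, hN⟩ : ∃ N : ℤ, N = -(((n + 1) * J : ℕ) : ℤ) := ⟨_, rfl⟩
    have e : (-((n * J : ℕ) : ℤ)) = N + J := by rw [hN]; push_cast; ring
    have h2 : QQ κ J (n + 1) = QQ κ J n * cr N κ⁻¹ := by rw [hN]; rfl
    rw [e, cr_add] at ih
    rw [← hN, h2]
    -- `z := κ * cr J c * c⁻¹`, `cr J c = κ⁻¹ z c`
    have h3 := Subgroup.Normal.conj_mem (inferInstance : (NT X).Normal) _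
      (NT_cr N (Subgroup.inv_mem _ h)) (QQ κ J n * cr N κ⁻¹)
    have h4 := Subgroup.mul_mem _ h3 ih
    have e2 : QQ κ J n * cr N κ⁻¹ * cr N (κ * cr J c * c⁻¹)⁻¹ * (QQ κ J n * cr N κ⁻¹)⁻¹ *
        (QQ κ J n * cr N (cr J c) * c⁻¹) = QQ κ J n * cr N κ⁻¹ * cr N c * c⁻¹ := by
      rw [map_inv (cr N), map_inv (cr N), map_mul, map_mul, map_inv]
      group
    rwa [e2] at h4

lemma PP_KS {P : Set (W k)} (h1 : (1 : W k) ∈ P) (hP : ∀ g ∈ P, RW k * g ∈ P) {κ : K k}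
    (hx : κ ∈ KS P) (J n : ℕ) : PP κ J n ∈ KS P := by
  induction n with
  | zero => exact Subgroup.one_mem _
  | succ n ih => exact Subgroup.mul_mem _ ih (crP h1 hP hx _)

lemma QQ_KS {P : Set (W k)} (h1 : (1 : W k) ∈ P) (hP : ∀ g ∈ P, (RW k)⁻¹ * g ∈ P) {κ : K k}
    (hx : κ ∈ KS P) (J n : ℕ) : QQ κ J n ∈ KS P := by
  induction n with
  | zero => exact Subgroup.one_mem _
  | succ n ih => exact Subgroup.mul_mem _ ih (crM h1 hP (Subgroup.inv_mem _ hx) _)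

/-- for large `n` the deletion of `c` is the deletion of `PP κ J n` -/
lemma rho_c_PP (hk : 1 ≤ k) {m : ℕ} {X X' : Set (W k)} (hX : Btw k m X) (hXX : X ⊆ X')
    {κ c : K k} {J : ℕ} (hJ : 0 < J) (h : κ * cr J c * c⁻¹ ∈ NT X') :
    ∃ N : ℕ, ∀ n, N ≤ n → rho hX c = rho hX (PP κ J n) := by
  obtain ⟨N, hN⟩ := rho_cr hk hX c
  refine ⟨N, fun n hn => ?_⟩
  have h1 := rho_NT hX hXX (PP_NT h n)
  have h2 : rho hX (cr ((n * J : ℕ) : ℤ) c) = 1 := by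
    apply hN
    rw [Int.natAbs_natCast]
    exact hn.trans (Nat.le_mul_of_pos_right n hJ)
  rw [map_mul, map_mul, h2, mul_one, map_inv, mul_inv_eq_one] at h1
  exact h1.symm

/-- for large `n` the deletion of `c` is the deletion of `QQ κ J n` -/
lemma rho_c_QQ (hk : 1 ≤ k) {m : ℕ} {X X' : Set (W k)} (hX : Btw k m X) (hXX : X ⊆ X')
    {κ c : K k} {J : ℕ} (hJ : 0 < J) (h : κ * cr J c * c⁻¹ ∈ NT X') :
    ∃ n, rho hX c = rho hX (QQ κ J n) := by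
  obtain ⟨N, hN⟩ := rho_cr hk hX c
  refine ⟨N, ?_⟩
  have h1 := rho_NT hX hXX (QQ_NT h N)
  have h2 : rho hX (cr (-((N * J : ℕ) : ℤ)) c) = 1 := by
    apply hN
    rw [Int.natAbs_neg, Int.natAbs_natCast]
    exact Nat.le_mul_of_pos_right N hJ
  rw [map_mul, map_mul, h2, mul_one, map_inv, mul_inv_eq_one] at h1
  exact h1.symm

/-- the deletion of `c` does not depend on `c` -/
lemma rho_indep (hk : 1 ≤ k) {m : ℕ} {X X' X'' : Set (W k)} (hX : Btw k m X) (h1 : X ⊆ X')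
    (h2 : X ⊆ X'') {κ c c' : K k} {J : ℕ} (hJ : 0 < J) (h : κ * cr J c * c⁻¹ ∈ NT X')
    (h' : κ * cr J c' * c'⁻¹ ∈ NT X'') : rho hX c = rho hX c' := by
  obtain ⟨N, hN⟩ := rho_c_PP hk hX h1 hJ h
  obtain ⟨N', hN'⟩ := rho_c_PP hk hX h2 hJ h'
  rw [hN (max N N') (le_max_left _ _), hN' (max N N') (le_max_right _ _)]

/-! ### the two sets -/

/-- `{R^(e n) s}`, `n : ℕ`, `s ∈ S` or `s = 1` -/
def Pe (e : ℤ) (S : Set (W k)) : Set (W k) :=
  {g | ∃ (n : ℕ) (s : W k), (s ∈ S ∨ s = 1) ∧ g = RW k ^ (e * n) * s}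

lemma Pe_one (e : ℤ) (S : Set (W k)) : (1 : W k) ∈ Pe e S := ⟨0, 1, Or.inr rfl, by simp⟩

lemma Pe_sub (e : ℤ) (S : Set (W k)) : S ⊆ Pe e S := fun s hs => ⟨0, s, Or.inl hs, by simp⟩

lemma Pe_step (e : ℤ) (S : Set (W k)) {g : W k} (hg : g ∈ Pe e S) : RW k ^ e * g ∈ Pe e S := by
  obtain ⟨n, s, hs, rfl⟩ := hg
  refine ⟨n + 1, s, hs, ?_⟩
  rw [← mul_assoc, ← zpow_add]
  congr 2
  push_cast
  ring

private theorem z3_pow {G : Type*} [Group G] {R g s s' : G} {n m : ℕ}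
    (e1 : g = R ^ ((1 : ℤ) * n) * s) (e2 : g = R ^ ((-1 : ℤ) * m) * s') :
    R ^ ((n : ℤ) + m) = s' * s⁻¹ := by
  have e3 : R ^ ((1 : ℤ) * n) * s = R ^ ((-1 : ℤ) * m) * s' := e1.symm.trans e2
  rw [one_mul, neg_one_mul, zpow_neg] at e3
  rw [eq_mul_inv_iff_mul_eq, add_comm, zpow_add, mul_assoc, e3, mul_inv_cancel_left]

private theorem z3_sub {G : Type*} [Group G] {R x : G} {a b : ℤ} (h1 : R ^ a = x) (h2 : R ^ b = x) :
    R ^ (a - b) = 1 := by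
  rw [zpow_sub, h1, h2, mul_inv_cancel]

/-- piece SUP-Z3: the intersection of the two sets is finite.
Proof. If `R^n s = R^(-m) s'`, `n, m : ℕ`, then `R^(n+m) = s' s⁻¹`, and for each pair `(s, s')` of the finite
set `S ∪ {1}` there is at most one `n + m` (`RW_pow`), so finitely many `n`. -/
theorem Pe_fin (hk : 1 ≤ k) {S : Set (W k)} (hS : S.Finite) : (Pe 1 S ∩ Pe (-1) S).Finite := by
  have hT : (insert 1 S : Set (W k)).Finite := hS.insert 1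
  have key : ∀ s s' : W k,
      {g : W k | ∃ n m : ℕ, g = RW k ^ ((1 : ℤ) * n) * s ∧ g = RW k ^ ((-1 : ℤ) * m) * s'}.Finite := by
    intro s s'
    by_cases he : ({g : W k | ∃ n m : ℕ, g = RW k ^ ((1 : ℤ) * n) * s ∧
        g = RW k ^ ((-1 : ℤ) * m) * s'}).Nonempty
    · obtain ⟨g₀, n₀, m₀, h1, h2⟩ := he
      refine ((Set.finite_Iic (n₀ + m₀)).image (fun n : ℕ => RW k ^ ((1 : ℤ) * n) * s)).subset ?_
      rintro g ⟨n, m, e1, e2⟩
      refine ⟨n, ?_, e1.symm⟩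
      have h5 : ((n : ℤ) + m) - ((n₀ : ℤ) + m₀) = 0 := RW_pow hk (z3_sub (z3_pow e1 e2) (z3_pow h1 h2))
      show n ≤ n₀ + m₀
      omega
    · rw [Set.not_nonempty_iff_eq_empty] at he
      rw [he]
      exact Set.finite_empty
  refine (hT.biUnion fun s _ => hT.biUnion fun s' _ => key s s').subset ?_
  rintro g ⟨⟨n, s, hs, e1⟩, ⟨m, s', hs', e2⟩⟩
  have hi : ∀ {t : W k}, t ∈ S ∨ t = 1 → t ∈ (insert 1 S : Set (W k)) := by
    rintro t (ht | rfl)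
    · exact Set.mem_insert_of_mem _ ht
    · exact Set.mem_insert _ _
  exact Set.mem_biUnion (hi hs) (Set.mem_biUnion (hi hs') ⟨n, m, e1, e2⟩)

/-- piece SUP-Z4: the deletions of the conjugators have a smaller support.
Proof. `Y = {g | lenW g < m} ∪ ({g | lenW g = m} ∩ Pe 1 S)` is between two balls (`Btw k m Y`). `D = rho c`
(`rho` for the ball of radius `m`) is `rho (PP κ J n)` (`rho_c_PP`), so it is in `KS (Pe 1 S ∩ ball k m)`
(`PP_KS`, `rho_KS`), `Pe 1 S ∩ ball k m ⊆ Y`, so `rho_Y D = D` (`rho_id`). It is also `rho (QQ κ J n)`, so it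
is in `KS (Pe (-1) S ∩ ball k m)`, and `rho_Y D ∈ KS (Pe (-1) S ∩ ball k m ∩ Y)` (`rho_KS`), and this
set is contained in `{g | lenW g < m}`, since an element with `lenW g = m` would be in
`Pe 1 S ∩ Pe (-1) S`, whose elements have `lenW < m` by `hm`. -/
theorem shrink (hk : 1 ≤ k) {S : Set (W k)} {κ c : K k} (hκ : κ ∈ KS S) {m J : ℕ} (hJ : 0 < J)
    (hm : ∀ g ∈ Pe 1 S ∩ Pe (-1) S, lenW g < m) {X' : Set (W k)} (hX' : ball k m ⊆ X')
    (h : κ * cr J c * c⁻¹ ∈ NT X') :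
    rho (btw_ball k m) c ∈ KS {g : W k | lenW g < m} := by
  have hY : Btw k m ({g : W k | lenW g < m} ∪ ({g : W k | lenW g = m} ∩ Pe 1 S)) := by
    refine ⟨fun w hw => Or.inl hw, fun w hw => ?_⟩
    rcases hw with hw | hw
    · exact le_of_lt hw
    · exact le_of_eq hw.1
  -- the support in `Pe 1 S`
  have hP : rho (btw_ball k m) c ∈ KS (Pe 1 S ∩ ball k m) := by
    obtain ⟨N, hN⟩ := rho_c_PP hk (btw_ball k m) hX' hJ h
    rw [hN N le_rfl]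
    refine rho_KS (btw_ball k m) (PP_KS (Pe_one 1 S) (fun g hg => ?_)
      (KS_mono (Pe_sub 1 S) hκ) J N)
    have h1 := Pe_step 1 S hg
    rwa [zpow_one] at h1
  -- the support in `Pe (-1) S`
  have hQ : rho (btw_ball k m) c ∈ KS (Pe (-1) S ∩ ball k m) := by
    obtain ⟨n, hn⟩ := rho_c_QQ hk (btw_ball k m) hX' hJ h
    rw [hn]
    refine rho_KS (btw_ball k m) (QQ_KS (Pe_one (-1) S) (fun g hg => ?_)
      (KS_mono (Pe_sub (-1) S) hκ) J n)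
    have h1 := Pe_step (-1) S hg
    rwa [zpow_neg_one] at h1
  have hD : rho hY (rho (btw_ball k m) c) = rho (btw_ball k m) c := by
    refine rho_id hY ?_ hP
    rintro g ⟨hg, hgm⟩
    rcases lt_or_eq_of_le (show lenW g ≤ m from hgm) with h1 | h1
    · exact Or.inl h1
    · exact Or.inr ⟨h1, hg⟩
  rw [← hD]
  refine KS_mono ?_ (rho_KS hY hQ)
  rintro g ⟨⟨hg, -⟩, hgY⟩
  rcases hgY with h1 | ⟨-, h1⟩
  · exact h1
  · exact hm g ⟨h1, hg⟩

/-- piece SUP-Z5: the stable conjugator.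
Proof. Let `S` be a finite support of `κ`, `m₀` such that all elements of `Pe 1 S ∩ Pe (-1) S` have
`lenW < m₀` (`Pe_fin`, `exists_ball`). For `m ≥ m₀` let `D m = rho (btw_ball k m) c` for any `c` of
`hc (ball k m)`; it does not depend on the choice of `c` (`rho_indep`, also for `c` of `hc X'`,
`ball k m ⊆ X'`). `D (m+1) = D m` for `m ≥ m₀`: with `c` of `hc (ball k (m+1))`:
`D m = rho_m c = rho_m (rho_{m+1} c) = rho_m (D (m+1))` (`rho_rho`) `= D (m+1)` (`rho_id`, `shrink` for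
`m + 1`: `{lenW < m + 1} = ball k m`). So all `D m = D := D m₀`. -/
theorem exists_D (hk : 1 ≤ k) {κ : K k} {J : ℕ} (hJ : 0 < J)
    (hc : ∀ X : Set (W k), X.Finite → ∃ c : K k, κ * cr J c * c⁻¹ ∈ NT X) :
    ∃ (D : K k) (m₀ : ℕ), ∀ m, m₀ ≤ m → ∀ (X' : Set (W k)) (c : K k), ball k m ⊆ X' →
      κ * cr J c * c⁻¹ ∈ NT X' → rho (btw_ball k m) c = D := by
  obtain ⟨S, hS, hκ⟩ := exists_KS κ
  obtain ⟨m₁, hm₁⟩ := exists_ball (Pe_fin hk hS)
  choose c hcm using fun m : ℕ => hc (ball k m) (ball_fin k m)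
  -- the deletion does not depend on the choice
  have hA : ∀ (m : ℕ) (X' : Set (W k)) (c' : K k), ball k m ⊆ X' → κ * cr J c' * c'⁻¹ ∈ NT X' →
      rho (btw_ball k m) c' = rho (btw_ball k m) (c m) := fun m X' c' h1 h2 =>
    rho_indep hk (btw_ball k m) h1 Set.Subset.rfl hJ h2 (hcm m)
  have hB : ∀ m, m₁ + 1 ≤ m →
      rho (btw_ball k (m + 1)) (c (m + 1)) = rho (btw_ball k m) (c m) := by
    intro m hm
    have h1 : rho (btw_ball k (m + 1)) (c (m + 1)) ∈ KS {g : W k | lenW g < m + 1} :=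
      shrink hk hκ hJ (fun g hg => (hm₁ g hg).trans_lt (by omega)) Set.Subset.rfl (hcm (m + 1))
    have h2 : rho (btw_ball k m) (rho (btw_ball k (m + 1)) (c (m + 1))) =
        rho (btw_ball k (m + 1)) (c (m + 1)) :=
      rho_id (btw_ball k m) (fun g hg => Nat.lt_succ_iff.1 hg) h1
    rw [← h2, rho_rho (btw_ball k m) (btw_ball k (m + 1)) (ball_mono (Nat.le_succ m))]
    exact hA m _ _ (ball_mono (Nat.le_succ m)) (hcm (m + 1))
  refine ⟨rho (btw_ball k (m₁ + 1)) (c (m₁ + 1)), m₁ + 1, fun m hm X' c' h1 h2 => ?_⟩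
  rw [hA m X' c' h1 h2]
  induction m, hm using Nat.le_induction with
  | base => rfl
  | succ m hm ih =>
    rw [hB m hm]
    exact ih (Set.Subset.trans (ball_mono (Nat.le_succ m)) h1)

/-- piece SUP-Z6: the end of the proof.
Proof. `D`, `m₀` from `exists_D`. Let `κ, D ∈ KS S'`, `cr J D ∈ KS S'` with `S'` finite, and `m ≥ m₀` with
`S' ⊆ ball k m` (`exists_ball'`). Let `M ≥ m` with `R^-J · ball k m ⊆ ball k M` (a finite set:
`exists_ball'`). Let `c` be from `hc (ball k M)`. `rho := rho (btw_ball k m)` kills `κ * cr J c * c⁻¹`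
(`rho_NT`, `ball_mono`). `rho κ = κ`, `rho c = D` (`exists_D` for `m`), and
`rho (cr J c) = rho (cr J (rho_M c)) = rho (cr J D) = cr J D`: the first equality holds for all `c`, as
both sides are homomorphisms and agree on the `muK g` (`KS_univ`, `KS_eq`; for `g ∉ ball k M`:
`rho (cr J (muK g)) = 1` by `cr_mu` since `R^J g ∉ ball k m`), the second one is `exists_D` for `M`. -/
theorem lemZ_pos (hk : 1 ≤ k) {κ : K k} {J : ℕ} (hJ : 0 < J)
    (hc : ∀ X : Set (W k), X.Finite → ∃ c : K k, κ * cr J c * c⁻¹ ∈ NT X) :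
    ∃ D : K k, κ * cr J D * D⁻¹ = 1 := by
  obtain ⟨D, m₀, hD⟩ := exists_D hk hJ hc
  obtain ⟨S1, hS1, hκ⟩ := exists_KS κ
  obtain ⟨S2, hS2, hJD⟩ := exists_KS (cr J D)
  obtain ⟨m1, hm1⟩ := exists_ball' hS1
  obtain ⟨m2, hm2⟩ := exists_ball' hS2
  obtain ⟨m, hm⟩ : ∃ m, m = max m₀ (max m1 m2) := ⟨_, rfl⟩
  have hm₀ : m₀ ≤ m := by omega
  obtain ⟨M1, hM1⟩ := exists_ball' ((ball_fin k m).image (fun g => RW k ^ (-(J : ℤ)) * g))
  obtain ⟨M, hM⟩ : ∃ M, M = max m M1 := ⟨_, rfl⟩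
  have hmM : m ≤ M := by omega
  obtain ⟨c, hc'⟩ := hc (ball k M) (ball_fin k M)
  have h1 := rho_NT (btw_ball k m) (ball_mono hmM) hc'
  have h2 := rho_id (btw_ball k m) (hm1 m (by omega)) hκ
  have h3 := hD m hm₀ (ball k M) c (ball_mono hmM) hc'
  have h4 : rho (btw_ball k m) (cr J c) = rho (btw_ball k m) (cr J (rho (btw_ball k M) c)) := by
    refine KS_eq (f := (rho (btw_ball k m)).comp (cr J : MulAut (K k)).toMonoidHom)
      (f' := ((rho (btw_ball k m)).comp (cr J : MulAut (K k)).toMonoidHom).comp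
        (rho (btw_ball k M))) (fun g _ => ?_) (KS_univ c)
    change rho (btw_ball k m) (cr J (muK g)) =
      rho (btw_ball k m) (cr J (rho (btw_ball k M) (muK g)))
    by_cases hg : g ∈ ball k M
    · rw [rho_mem (btw_ball k M) hg]
    · rw [rho_not (btw_ball k M) hg, map_one, map_one, cr_mu, map_mul, map_mul,
        rho_not (btw_ball k m), mul_one, map_inv, mul_inv_cancel]
      intro h
      apply hg
      apply hM1 M (by omega)
      refine ⟨_, h, ?_⟩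
      simp only
      rw [← mul_assoc, ← zpow_add, neg_add_cancel, zpow_zero, one_mul]
  have h5 := hD M (hm₀.trans hmM) (ball k M) c subset_rfl hc'
  have h6 := rho_id (btw_ball k m) (hm2 m (by omega)) hJD
  refine ⟨D, ?_⟩
  rw [map_mul, map_mul, map_inv, h2, h3, h4, h5, h6] at h1
  exact h1

/-- (Z) for positive exponents -/
theorem lemZ_nat (hk : 3 ≤ k) {κ : K k} {J : ℕ} (hJ : 0 < J)
    (h : ∀ N : ℕ, ∃ l : L k, l * (κ.1 * rL k ^ (J : ℤ)) * l⁻¹ =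
      (de k ^ N : MulAut (L k)) (κ.1 * rL k ^ (J : ℤ))) :
    ∃ c : K k, κ.1 * rL k ^ (J : ℤ) = c.1 * rL k ^ (J : ℤ) * c.1⁻¹ := by
  obtain ⟨D, hD⟩ := lemZ_pos (by omega) hJ
    (fun X hX => exists_c hk (j := (J : ℤ)) (by omega) h hX)
  refine ⟨D, ?_⟩
  have h1 : κ = D * (cr J D)⁻¹ := by
    rw [eq_mul_inv_iff_mul_eq]
    exact mul_inv_eq_one.1 hD
  have h2 : κ.1 = D.1 * (rL k ^ (J : ℤ) * D.1 * (rL k ^ (J : ℤ))⁻¹)⁻¹ := by
    have h3 := congrArg Subtype.val h1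
    rw [← cr_coe]
    exact h3
  rw [h2]
  group

/-- (Z) -/
theorem lemZ' (hk : 3 ≤ k) {κ : L k} (hκ : κ ∈ K k) {j : ℤ} (hj : j ≠ 0)
    (h : ∀ N : ℕ, ∃ l : L k, l * (κ * rL k ^ j) * l⁻¹ =
      (((eL k)⁻¹ * aL 0) ^ N : MulAut (L k)) (κ * rL k ^ j)) :
    ∃ c ∈ K k, κ * rL k ^ j = c * rL k ^ j * c⁻¹ := by
  rcases lt_or_gt_of_ne hj with hj' | hj'
  · obtain ⟨J, hJ⟩ : ∃ J : ℕ, j = -(J : ℤ) := ⟨j.natAbs, by omega⟩
    have hJ0 : 0 < J := by omega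
    have e : (κ * rL k ^ j)⁻¹ = (rL k ^ (J : ℤ) * κ⁻¹ * (rL k ^ (J : ℤ))⁻¹) * rL k ^ (J : ℤ) := by
      rw [hJ]; group
    have hm : rL k ^ (J : ℤ) * κ⁻¹ * (rL k ^ (J : ℤ))⁻¹ ∈ K k :=
      Subgroup.Normal.conj_mem inferInstance _ (Subgroup.inv_mem _ hκ) _
    obtain ⟨c, hc⟩ := lemZ_nat hk (κ := ⟨_, hm⟩) hJ0 (fun N => by
      obtain ⟨l, hl⟩ := h N
      refine ⟨l, ?_⟩
      change l * (rL k ^ (J : ℤ) * κ⁻¹ * (rL k ^ (J : ℤ))⁻¹ * rL k ^ (J : ℤ)) * l⁻¹ =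
        (de k ^ N : MulAut (L k)) (rL k ^ (J : ℤ) * κ⁻¹ * (rL k ^ (J : ℤ))⁻¹ * rL k ^ (J : ℤ))
      rw [← e, map_inv]
      change _ = ((((eL k)⁻¹ * aL 0) ^ N : MulAut (L k)) (κ * rL k ^ j))⁻¹
      rw [← hl]
      group)
    refine ⟨c.1, c.2, ?_⟩
    change rL k ^ (J : ℤ) * κ⁻¹ * (rL k ^ (J : ℤ))⁻¹ * rL k ^ (J : ℤ) =
      c.1 * rL k ^ (J : ℤ) * c.1⁻¹ at hc
    rw [← e] at hc
    rw [← inv_inv (κ * rL k ^ j), hc, hJ]
    group
  · obtain ⟨J, hJ⟩ : ∃ J : ℕ, j = (J : ℤ) := ⟨j.natAbs, by omega⟩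
    subst hJ
    obtain ⟨c, hc⟩ := lemZ_nat hk (κ := ⟨κ, hκ⟩) (by omega) h
    exact ⟨c.1, c.2, hc⟩

end Pool.Agent.Helper7.DN
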