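import Pool.Agent.Helper20.DN.FR
import Pool.Agent.Helper20.DN.WF

/-!
# Project DN, block SUP: supports in `K k`

`KS S` is the subgroup of `K k` generated by the `muK g`, `g ∈ S`; `rho hX` is the deletion of the
letters which are not in `X` (a set between two balls); `cR n` is the conjugation with `R^n` and
`cr n` the conjugation with `r^n` on `K k`.
-/

namespace Pool.Agent.Helper7.DN

open Pool.Agent.Helper38.BN Pool.Agent.Helper20.DN

variable {k : ℕ}

/-- the elements of `K k` with support in `S` -/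
def KS (S : Set (W k)) : Subgroup (K k) := Subgroup.closure (muK '' S)

lemma KS_mono {S S' : Set (W k)} (h : S ⊆ S') : KS S ≤ KS S' :=
  Subgroup.closure_mono (Set.image_mono h)

lemma muK_mem {S : Set (W k)} {g : W k} (h : g ∈ S) : muK g ∈ KS S :=
  Subgroup.subset_closure ⟨g, h, rfl⟩

lemma KS_empty : KS (∅ : Set (W k)) = ⊥ := by simp [KS]

/-- a homomorphism maps `KS S` into `H` if it maps the generators into `H` -/
lemma KS_le {H' : Type*} [Group H'] {S : Set (W k)} {H : Subgroup H'} {f : K k →* H'}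
    (h : ∀ g ∈ S, f (muK g) ∈ H) {x : K k} (hx : x ∈ KS S) : f x ∈ H := by
  have h1 : KS S ≤ H.comap f := by
    unfold KS
    rw [Subgroup.closure_le]
    rintro _ ⟨g, hg, rfl⟩
    exact h g hg
  exact h1 hx

/-- two homomorphisms which agree on the generators agree on `KS S` -/
lemma KS_eq {H' : Type*} [Group H'] {S : Set (W k)} {f f' : K k →* H'}
    (h : ∀ g ∈ S, f (muK g) = f' (muK g)) {x : K k} (hx : x ∈ KS S) : f x = f' x := by
  have h1 : KS S ≤ f.eqLocus f' := by
    unfold KS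
    rw [Subgroup.closure_le]
    rintro _ ⟨g, hg, rfl⟩
    exact h g hg
  exact h1 hx

private lemma SUPA1_map (S : Set (W k)) :
    (KS S).map (K k).subtype = Subgroup.closure (muL '' S) := by
  unfold KS
  rw [MonoidHom.map_closure, Set.image_image]
  rfl

private lemma SUPA1_mem {S : Set (W k)} {x : K k} :
    x ∈ KS S ↔ x.1 ∈ Subgroup.closure (muL '' S) := by
  rw [← SUPA1_map S]
  constructor
  · intro h
    exact ⟨x, h, rfl⟩
  · rintro ⟨y, hy, hxy⟩
    have h1 : y = x := Subtype.ext hxy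
    rwa [← h1]

/-- piece SUP-A1: every element of `K k` has a finite support.
Proof. `exists_supp` (LL.lean) gives `x.1 ∈ closure (muL '' S)`, and `closure (muL '' S)` is the image of
`KS S` under `(K k).subtype` (`MonoidHom.map_closure`). -/
theorem exists_KS (x : K k) : ∃ S : Set (W k), S.Finite ∧ x ∈ KS S := by
  obtain ⟨S, hS, h⟩ := exists_supp x.2
  exact ⟨S, hS, SUPA1_mem.2 h⟩

/-- piece SUP-A1: `x.1 ∈ closure (muL '' S)` if and only if `x ∈ KS S` -/
theorem mem_KS {S : Set (W k)} {x : K k} : x ∈ KS S ↔ x.1 ∈ Subgroup.closure (muL '' S) :=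
  SUPA1_mem

/-! ### the deletions -/

/-- the deletion of the letters which are not in `X` -/
noncomputable def rho {m : ℕ} {X : Set (W k)} (hX : Btw k m X) : K k →* K k :=
  Classical.choose (exists_rho hX)

lemma rho_mem {m : ℕ} {X : Set (W k)} (hX : Btw k m X) {g : W k} (h : g ∈ X) :
    rho hX (muK g) = muK g := (Classical.choose_spec (exists_rho hX)).1 g h

lemma rho_not {m : ℕ} {X : Set (W k)} (hX : Btw k m X) {g : W k} (h : g ∉ X) :
    rho hX (muK g) = 1 := (Classical.choose_spec (exists_rho hX)).2 g h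

lemma rho_id {m : ℕ} {X S : Set (W k)} (hX : Btw k m X) (h : S ⊆ X) {x : K k} (hx : x ∈ KS S) :
    rho hX x = x :=
  KS_eq (f' := MonoidHom.id _) (fun _ hg => rho_mem hX (h hg)) hx

lemma rho_one {m : ℕ} {X S : Set (W k)} (hX : Btw k m X) (h : ∀ g ∈ S, g ∉ X) {x : K k}
    (hx : x ∈ KS S) : rho hX x = 1 :=
  KS_eq (f' := 1) (fun _ hg => rho_not hX (h _ hg)) hx

lemma rho_KS {m : ℕ} {X S : Set (W k)} (hX : Btw k m X) {x : K k} (hx : x ∈ KS S) :
    rho hX x ∈ KS (S ∩ X) := by
  refine KS_le (fun g hg => ?_) hx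
  by_cases h : g ∈ X
  · rw [rho_mem hX h]; exact muK_mem ⟨hg, h⟩
  · rw [rho_not hX h]; exact Subgroup.one_mem _

lemma KS_univ (x : K k) : x ∈ KS (Set.univ : Set (W k)) := by
  obtain ⟨S, -, h⟩ := exists_KS x
  exact KS_mono (Set.subset_univ S) h

lemma rho_rho {m m' : ℕ} {X Y : Set (W k)} (hX : Btw k m X) (hY : Btw k m' Y) (h : X ⊆ Y)
    (x : K k) : rho hX (rho hY x) = rho hX x := by
  refine KS_eq (f := (rho hX).comp (rho hY)) (fun g _ => ?_) (KS_univ x)
  rw [MonoidHom.comp_apply]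
  by_cases hg : g ∈ Y
  · rw [rho_mem hY hg]
  · rw [rho_not hY hg, map_one, rho_not hX (fun h' => hg (h h'))]

/-- the ball of radius `m` -/
def ball (k m : ℕ) : Set (W k) := {w | lenW w ≤ m}

lemma btw_ball (k m : ℕ) : Btw k m (ball k m) := ⟨fun _ h => le_of_lt h, fun _ h => h⟩

lemma ball_mono {m m' : ℕ} (h : m ≤ m') : ball k m ⊆ ball k m' :=
  fun _ hw => le_trans hw h

lemma ball_fin (k m : ℕ) : (ball k m).Finite := ball_finite k m

lemma exists_ball' {S : Set (W k)} (hS : S.Finite) : ∃ m, ∀ m', m ≤ m' → S ⊆ ball k m' := by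
  obtain ⟨m, hm⟩ := exists_ball hS
  exact ⟨m, fun m' h w hw => le_trans (hm w hw) h⟩

/-- the basic principle: an element with support in `X` which is conjugate in `K k` to an element
with support outside of `X` is trivial -/
lemma off {m : ℕ} {X S S' : Set (W k)} (hX : Btw k m X) {x y c : K k} (hx : x ∈ KS S)
    (hS : S ⊆ X) (hy : y ∈ KS S') (hS' : ∀ g ∈ S', g ∉ X) (h : x = c * y * c⁻¹) : x = 1 := by
  rw [← rho_id hX hS hx, h, map_mul, map_mul, rho_one hX hS' hy, mul_one, map_inv, mul_inv_cancel]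

/-! ### powers of an element of infinite order -/

/-- piece SUP-A2: the powers of an element of infinite order move a finite set off a finite set.
Proof. For `s ∈ S`, `f ∈ F` there is at most one `n` with `g^n = f s⁻¹`. So the set
`{n : ℤ | ∃ s ∈ S, g^n * s ∈ F}` is finite (`Set.Finite.biUnion` of subsingletons), and a finite set of
integers is bounded. -/
theorem off_pow {g : W k} (hg : ∀ n : ℤ, g ^ n = 1 → n = 0) {S F : Set (W k)} (hS : S.Finite)
    (hF : F.Finite) : ∃ N : ℕ, ∀ n : ℤ, N ≤ n.natAbs → ∀ s ∈ S, g ^ n * s ∉ F := by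
  have h1 : (⋃ s ∈ S, ⋃ f ∈ F, {n : ℤ | g ^ n * s = f}).Finite := by
    refine hS.biUnion fun s _ => hF.biUnion fun f _ => ?_
    refine Set.Subsingleton.finite ?_
    intro n hn m hm
    have h2 : g ^ n = g ^ m := mul_right_cancel (a := g ^ n) (b := s) (c := g ^ m)
      ((show g ^ n * s = f from hn).trans (show g ^ m * s = f from hm).symm)
    have h3 := hg (n - m) (by rw [zpow_sub, h2, mul_inv_cancel])
    omega
  obtain ⟨N, hN⟩ := (h1.image Int.natAbs).bddAbove
  refine ⟨N + 1, fun n hn s hs hF' => ?_⟩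
  have h2 : n.natAbs ≤ N := hN ⟨n, by
    simp only [Set.mem_iUnion, Set.mem_ofPred_eq]
    exact ⟨s, hs, g ^ n * s, hF', rfl⟩, rfl⟩
  omega

/-- piece SUP-A3: `R` is not the identity and no element of finite order -/
theorem RW_ne (hk : 1 ≤ k) : (RW k : W k) ≠ 1 := by
  intro h
  have h1 : (1 : ℤ) = 0 := RW_pow hk (n := 1) (by rw [zpow_one]; exact h)
  exact one_ne_zero h1

/-- piece SUP-A3: the center of `W k` is trivial.
Proof. `w` commutes with `R`, so `w = R^n` (`centW` with exponent `1`). If `n ≠ 0`, then every `g`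
commutes with `R^n`, so `x_0 = R^m` (`centW`), `R^(2m) = 1`, `m = 0` (`RW_pow`), `x_0 = 1`, but
`lenW x_0 = 1` (`lenW_wv` for `[0]`). -/
theorem centerW (hk : 1 ≤ k) {w : W k} (h : ∀ g, w * g = g * w) : w = 1 := by
  obtain ⟨n, hn⟩ := Subgroup.mem_zpowers_iff.1
    (centW hk (g := w) (n := 1) one_ne_zero (by rw [zpow_one]; exact h (RW k)))
  by_cases h0 : n = 0
  · rw [← hn, h0, zpow_zero]
  · exfalso
    obtain ⟨m, hm⟩ := Subgroup.mem_zpowers_iff.1
      (centW hk (g := (xW 0 : W k)) h0 (by rw [hn]; exact (h (xW 0)).symm))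
    have h2 : RW k ^ (m + m) = 1 := by rw [zpow_add, hm, xW_sq]
    have h3 := RW_pow hk h2
    have h4 : m = 0 := by omega
    rw [h4, zpow_zero] at hm
    have h5 := lenW_wv (k := k) (l := [0]) ⟨by simp, List.isChain_singleton 0⟩
    rw [wv_cons, wv_nil, mul_one, ← hm, lenW_one] at h5
    simp at h5

/-- the homomorphism to the signs which is `-1` at `x_a` only -/
private def sgW (k a : ℕ) : W k →* ℤˣ :=
  liftW (fun i => if i = a then -1 else 1) (fun i _ => by split_ifs <;> simp)

private lemma sgW_x {k a i : ℕ} (hi : i ≤ k) : sgW k a (xW i) = if i = a then -1 else 1 :=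
  liftW_x _ _ hi

private lemma sgW_xw {k a : ℕ} : ∀ j, j ≤ k → sgW k a (xwW j) = if a ≤ j then -1 else 1
  | 0, h => by
    have h1 : (xwW 0 : W k) = xW 0 := rfl
    rw [h1, sgW_x h]
    by_cases h2 : a = 0
    · rw [if_pos h2.symm, if_pos (by omega)]
    · rw [if_neg (fun h' => h2 h'.symm), if_neg (by omega)]
  | j + 1, h => by
    have h1 : (xwW (j + 1) : W k) = xwW j * xW (j + 1) := rfl
    rw [h1, map_mul, sgW_xw j (by omega), sgW_x h]
    by_cases h2 : a ≤ j
    · rw [if_pos h2, if_neg (by omega), if_pos (by omega), mul_one]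
    · by_cases h3 : j + 1 = a
      · rw [if_neg h2, if_pos h3, if_pos (by omega), one_mul]
      · rw [if_neg h2, if_neg h3, if_neg (by omega), one_mul]

/-- piece SUP-A4: `x_0 x_1` is not a power of `R`, `k ≥ 2`.
Proof. Let `x_0 x_1 = R^n`. The homomorphism to the signs which is `-1` at `x_2` only: `1 = (-1)^n`; the
homomorphism which is `-1` at `x_0` only: `-1 = (-1)^n`. (`liftW`; the value at `R = xwW k` by
induction on `j` for `xwW j`.) -/
theorem x01_not (hk : 2 ≤ k) : (xW 0 * xW 1 : W k) ∉ Subgroup.zpowers (RW k) := by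
  intro h
  obtain ⟨n, hn⟩ := Subgroup.mem_zpowers_iff.1 h
  have h1 : ∀ a, a ≤ k → sgW k a (RW k) = -1 := fun a ha => by
    have h2 : RW k = xwW k := rfl
    rw [h2, sgW_xw k le_rfl, if_pos ha]
  have h3 := congrArg (sgW k 2) hn
  rw [map_zpow, h1 2 hk, map_mul, sgW_x (by omega), sgW_x (by omega), if_neg (by omega),
    if_neg (by omega), mul_one] at h3
  have h4 := congrArg (sgW k 0) hn
  rw [map_zpow, h1 0 (by omega), map_mul, sgW_x (by omega), sgW_x (by omega), if_pos rfl,
    if_neg (by omega), mul_one] at h4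
  rw [h3] at h4
  exact absurd h4 (by decide)

/-! ### conjugations -/

/-- the conjugation with an element of `L k` on `K k` -/
def cj (x : L k) : MulAut (K k) := MulAut.conjNormal x

@[simp] lemma cj_coe (x : L k) (y : K k) : ((cj x y : K k) : L k) = x * y.1 * x⁻¹ :=
  MulAut.conjNormal_apply x y

lemma cj_mul (x x' : L k) (y : K k) : cj (x * x') y = cj x (cj x' y) := by
  apply Subtype.ext
  simp only [cj_coe, mul_inv_rev, mul_assoc]

lemma cj_K (x : K k) (y : K k) : cj (x : L k) y = x * y * x⁻¹ := by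
  apply Subtype.ext
  simp

lemma cj_sW_mu (w g : W k) : cj (sW k w) (muK g) = muK (w * g) := by
  apply Subtype.ext
  rw [cj_coe]
  exact sW_mu w g

lemma cj_sW_KS (w : W k) {S : Set (W k)} {x : K k} (hx : x ∈ KS S) :
    cj (sW k w) x ∈ KS ((fun g => w * g) '' S) := by
  refine KS_le (f := (cj (sW k w)).toMonoidHom) (fun g hg => ?_) hx
  change cj (sW k w) (muK g) ∈ _
  rw [cj_sW_mu]
  exact muK_mem ⟨g, hg, rfl⟩

/-- the element `r^n R^-n` of `K k` -/
def yn (n : ℤ) : K k := ⟨rL k ^ n * (RL k ^ n)⁻¹, by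
  rw [mem_K, map_mul, map_inv, map_zpow, map_zpow, toW_r]
  unfold RL
  rw [toW_sW, mul_inv_cancel]⟩

/-- the conjugation with `r^n` on `K k` -/
def cr (n : ℤ) : MulAut (K k) := cj (rL k ^ n)

lemma cr_coe (n : ℤ) (y : K k) : ((cr n y : K k) : L k) = rL k ^ n * y.1 * (rL k ^ n)⁻¹ :=
  cj_coe _ _

lemma cr_add (n m : ℤ) (x : K k) : cr (n + m) x = cr n (cr m x) := by
  unfold cr
  rw [zpow_add, cj_mul]

lemma cr_zero (x : K k) : cr 0 x = x := by
  apply Subtype.ext
  rw [cr_coe]; simp

lemma cr_neg (n : ℤ) (x : K k) : cr (-n) (cr n x) = x := by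
  rw [← cr_add, neg_add_cancel, cr_zero]

lemma cr_neg' (n : ℤ) (x : K k) : cr n (cr (-n) x) = x := by
  rw [← cr_add, add_neg_cancel, cr_zero]

/-- `cr n` is the conjugation with `R^n` followed by the conjugation with `y_n` -/
lemma cr_eq (n : ℤ) (x : K k) : cr n x = yn n * cj (sW k (RW k ^ n)) x * (yn n)⁻¹ := by
  have h : RL k ^ n = sW k (RW k ^ n) := by unfold RL; rw [map_zpow]
  apply Subtype.ext
  rw [cr_coe]
  change _ = (rL k ^ n * (RL k ^ n)⁻¹) * (cj (sW k (RW k ^ n)) x : K k) *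
    (rL k ^ n * (RL k ^ n)⁻¹)⁻¹
  rw [cj_coe, h]
  group

end Pool.Agent.Helper7.DN
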