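import Pool.Agent.Helper7.DN.Sup0

/-!
# Project DN, block SUP: centralizers in `L k`
-/

namespace Pool.Agent.Helper7.DN

open Pool.Agent.Helper38.BN Pool.Agent.Helper20.DN

variable {k : ℕ}

/-- an element of `K k` which commutes with `sW (g^n) * κ`-like elements: if for infinitely many `n`
it is conjugate in `K k` to its conjugate with `g^n`, then it is trivial.
Proof. Let `x ∈ KS S`, `S` finite (`exists_KS`), `X = ball k m ⊇ S` (`exists_ball'`), `N` from `off_pow`
(`F = ball k m`, finite), `n` with `N ≤ n.natAbs`: `off` (with `cj_sW_KS`). -/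
theorem eq_one_of_move {g : W k} (hg : ∀ n : ℤ, g ^ n = 1 → n = 0) {x : K k}
    (h : ∀ N : ℕ, ∃ n : ℤ, N ≤ n.natAbs ∧ ∃ c : K k, x = c * cj (sW k (g ^ n)) x * c⁻¹) :
    x = 1 := by
  obtain ⟨S, hS, hx⟩ := exists_KS x
  obtain ⟨m, hm⟩ := exists_ball' hS
  obtain ⟨N, hN⟩ := off_pow hg hS (ball_fin k m)
  obtain ⟨n, hn, c, hc⟩ := h N
  refine off (btw_ball k m) hx (hm m le_rfl) (cj_sW_KS (g ^ n) hx) ?_ hc
  rintro _ ⟨s, hs, rfl⟩
  exact hN n hn s hs

/-- (L1) -/
theorem centerL' (hk : 2 ≤ k) {x : L k} (h : ∀ y, x * y = y * x) : x = 1 := by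
  have h1 : toW k x = 1 := by
    apply centerW (by omega)
    intro g
    have h2 := congrArg (toW k) (h (sW k g))
    simpa using h2
  have h2 : (⟨x, mem_K.2 h1⟩ : K k) = 1 := by
    refine eq_one_of_move (g := RW k) (fun n => RW_pow (by omega)) fun N => ⟨N, by simp, 1, ?_⟩
    apply Subtype.ext
    rw [one_mul, inv_one, mul_one, cj_coe]
    change x = _ * x * _
    rw [← h, mul_inv_cancel_right]
  exact congrArg Subtype.val h2

/-- block SUP: `r` has infinite order -/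
theorem rL_pow' (hk : 2 ≤ k) {n : ℤ} (h : rL k ^ n = 1) : n = 0 := by
  apply RW_pow (k := k) (by omega)
  have h1 := congrArg (toW k) h
  rwa [map_zpow, toW_r, map_one] at h1

/-- (L2), in `K k` -/
theorem cent_rK (hk : 2 ≤ k) {x : K k} {n : ℤ} (hn : n ≠ 0) (h : cr n x = x) : x = 1 := by
  have hm : ∀ t : ℕ, cr (n * t) x = x := by
    intro t
    induction t with
    | zero => simp [cr_zero]
    | succ t ih =>
      have e : n * ((t + 1 : ℕ) : ℤ) = n + n * t := by push_cast; ring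
      rw [e, cr_add, ih, h]
  refine eq_one_of_move (g := RW k) (fun n => RW_pow (by omega)) fun N =>
    ⟨n * N, ?_, yn (n * N), ?_⟩
  · rw [Int.natAbs_mul, Int.natAbs_natCast]
    exact Nat.le_mul_of_pos_left N (Int.natAbs_pos.2 hn)
  · rw [← cr_eq, hm]

/-- (L2) -/
theorem cent_rL' (hk : 2 ≤ k) {x : L k} {n : ℤ} (hn : n ≠ 0) (h : x * rL k ^ n = rL k ^ n * x) :
    x ∈ Subgroup.zpowers (rL k) := by
  have h1 : toW k x ∈ Subgroup.zpowers (RW k) := by
    apply centW (by omega) hn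
    have h2 := congrArg (toW k) h
    rwa [map_mul, map_mul, map_zpow, toW_r] at h2
  obtain ⟨i, hi⟩ := Subgroup.mem_zpowers_iff.1 h1
  have h2 : x * (rL k ^ i)⁻¹ ∈ K k := by
    rw [mem_K, map_mul, map_inv, map_zpow, toW_r, hi, mul_inv_cancel]
  have h3 : (⟨x * (rL k ^ i)⁻¹, h2⟩ : K k) = 1 := by
    apply cent_rK hk hn
    apply Subtype.ext
    rw [cr_coe]
    change rL k ^ n * (x * (rL k ^ i)⁻¹) * (rL k ^ n)⁻¹ = x * (rL k ^ i)⁻¹
    rw [← mul_assoc, ← h, mul_assoc, mul_assoc]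
    congr 1
    group
  refine Subgroup.mem_zpowers_iff.2 ⟨i, ?_⟩
  have h4 : x * (rL k ^ i)⁻¹ = 1 := congrArg Subtype.val h3
  exact (mul_inv_eq_one.1 h4).symm

/-- (L3) -/
theorem cent_xx' (hk : 2 ≤ k) {x : L k} (hx : x ∈ K k)
    (h : x * (xL k * xL (k - 1)) = xL k * xL (k - 1) * x) : x = 1 := by
  have e : sW k (xW k * xW (k - 1)) = xL k * xL (k - 1) := by
    rw [map_mul, sW_x (by omega), sW_x (by omega)]
  have h2 : (⟨x, hx⟩ : K k) = 1 := by
    refine eq_one_of_move (g := xW k * xW (k - 1)) (fun n => xkk_pow (by omega)) fun N =>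
      ⟨N, by simp, 1, ?_⟩
    apply Subtype.ext
    rw [one_mul, inv_one, mul_one, cj_coe]
    change x = _ * x * _
    rw [map_zpow, e]
    have hc : Commute x ((xL k * xL (k - 1)) ^ (N : ℤ)) := Commute.zpow_right h N
    rw [← hc.eq, mul_inv_cancel_right]
  exact congrArg Subtype.val h2

end Pool.Agent.Helper7.DN
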