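import Pool.Agent.Helper7.DN.Sup1

/-!
# Project DN, block SUP: the main lemma (Z), part 1: the normal subgroups `NT X`
-/

namespace Pool.Agent.Helper7.DN

open Pool.Agent.Helper38.BN Pool.Agent.Helper20.DN

variable {k : ℕ}

/-- the normal subgroup of `K k` generated by the `muK g`, `g` not in `⟨R⟩ X` -/
def NT (X : Set (W k)) : Subgroup (K k) :=
  Subgroup.normalClosure (muK '' {g | ∀ i : ℤ, RW k ^ i * g ∉ X})

instance (X : Set (W k)) : (NT X).Normal := Subgroup.normalClosure_normal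

lemma NT_mem {X : Set (W k)} {g : W k} (h : ∀ i : ℤ, RW k ^ i * g ∉ X) : muK g ∈ NT X :=
  Subgroup.subset_normalClosure ⟨g, h, rfl⟩

lemma cr_mu (n : ℤ) (g : W k) : cr n (muK g) = yn n * muK (RW k ^ n * g) * (yn n)⁻¹ := by
  rw [cr_eq, cj_sW_mu]

lemma NT_cr (n : ℤ) {X : Set (W k)} {x : K k} (hx : x ∈ NT X) : cr n x ∈ NT X := by
  have h1 : NT X ≤ (NT X).comap (cr n : MulAut (K k)).toMonoidHom := by
    unfold NT
    refine Subgroup.normalClosure_le_normal ?_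
    rintro _ ⟨g, hg, rfl⟩
    change cr n (muK g) ∈ NT X
    rw [cr_mu]
    refine Subgroup.Normal.conj_mem inferInstance _ (NT_mem fun i => ?_) _
    rw [← mul_assoc, ← zpow_add]
    exact hg (i + n)
  exact h1 hx

lemma rho_NT {m : ℕ} {X X' : Set (W k)} (hX : Btw k m X) (h : X ⊆ X') {x : K k}
    (hx : x ∈ NT X') : rho hX x = 1 := by
  have h1 : NT X' ≤ (rho hX).ker := by
    unfold NT
    refine Subgroup.normalClosure_le_normal ?_
    rintro _ ⟨g, hg, rfl⟩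
    refine MonoidHom.mem_ker.2 (rho_not hX fun h' => ?_)
    have h2 := hg 0
    rw [zpow_zero, one_mul] at h2
    exact h2 (h h')
  exact h1 hx

/-! ### the automorphism `e⁻¹ a_0` -/

/-- the automorphism `e⁻¹ a_0` of `L k` -/
def de (k : ℕ) : MulAut (L k) := (eL k)⁻¹ * aL 0

lemma toW_eL (hk : 1 ≤ k) (x : L k) : toW k (eL k x) = wA 0 (toW k x) := by
  unfold eL
  rw [MulAut.mul_apply, MulAut.mul_apply, toW_tL0, toW_aL (by omega), toW_tL0]

lemma toW_de (hk : 1 ≤ k) (x : L k) : toW k (de k x) = toW k x := by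
  unfold de
  rw [MulAut.mul_apply]
  have h1 := toW_eL hk ((eL k)⁻¹ (aL 0 x))
  rw [MulAut.apply_inv_self, toW_aL (by omega)] at h1
  exact ((wA 0).injective h1).symm

lemma toW_de_pow (hk : 1 ≤ k) (N : ℕ) (x : L k) : toW k ((de k ^ N : MulAut (L k)) x) = toW k x := by
  induction N with
  | zero => rw [pow_zero, MulAut.one_apply]
  | succ N ih => rw [pow_succ', MulAut.mul_apply, toW_de hk, ih]

lemma de_r (k : ℕ) : de k (rL k) = rL k := by
  unfold de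
  rw [MulAut.mul_apply, aL_r, MulAut.inv_apply, MulEquiv.symm_apply_eq, eL_r]

lemma de_pow_r (N : ℕ) : (de k ^ N : MulAut (L k)) (rL k) = rL k := by
  induction N with
  | zero => rw [pow_zero, MulAut.one_apply]
  | succ N ih => rw [pow_succ', MulAut.mul_apply, ih, de_r]

lemma de_pow_K (hk : 1 ≤ k) (N : ℕ) {x : L k} (hx : x ∈ K k) :
    (de k ^ N : MulAut (L k)) x ∈ K k := by
  rw [mem_K, toW_de_pow hk]
  exact mem_K.1 hx

/-- the restriction of `(e⁻¹ a_0)^N` to `K k` -/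
def deK (hk : 1 ≤ k) (N : ℕ) : K k →* K k where
  toFun x := ⟨(de k ^ N : MulAut (L k)) x.1, de_pow_K hk N x.2⟩
  map_one' := Subtype.ext (map_one _)
  map_mul' x y := Subtype.ext (map_mul _ _ _)

lemma deK_mu (hk : 1 ≤ k) (N : ℕ) (g : W k) :
    ∃ c : K k, deK hk N (muK g) = c * muK (g * (xW 1 * xW 0) ^ N) * c⁻¹ := by
  induction N with
  | zero =>
    refine ⟨1, Subtype.ext ?_⟩
    rw [pow_zero, mul_one, one_mul, inv_one, mul_one]
    change (de k ^ 0 : MulAut (L k)) (muL g) = muL g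
    rw [pow_zero, MulAut.one_apply]
  | succ N ih =>
    obtain ⟨c, hc⟩ := ih
    obtain ⟨κ, hκ, h2⟩ := ea_mu hk (g * (xW 1 * xW 0) ^ N)
    have hc1 : (de k ^ N : MulAut (L k)) (muL g) = c.1 * muL (g * (xW 1 * xW 0) ^ N) * c.1⁻¹ :=
      congrArg Subtype.val hc
    have h3 : de k c.1 ∈ K k := by
      have := de_pow_K hk 1 c.2
      rwa [pow_one] at this
    refine ⟨⟨de k c.1, h3⟩ * ⟨κ, hκ⟩, Subtype.ext ?_⟩
    change (de k ^ (N + 1) : MulAut (L k)) (muL g) =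
      de k c.1 * κ * muL (g * (xW 1 * xW 0) ^ (N + 1)) * (de k c.1 * κ)⁻¹
    rw [pow_succ' (de k), MulAut.mul_apply, hc1, map_mul, map_mul, map_inv]
    have h4 : de k (muL (g * (xW 1 * xW 0) ^ N)) =
        κ * muL (g * (xW 1 * xW 0) ^ N * (xW 1 * xW 0)) * κ⁻¹ := h2
    rw [h4, pow_succ]
    group

/-- piece SUP-Z1: choice of the exponent `N`.
Proof. For `s ∈ S`, `x ∈ X` there is at most one `N : ℕ` such that `R^i s (x_1 x_0)^N = x` for some `i`: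
if also `R^i' s (x_1 x_0)^N' = x`, then `s (x_1 x_0)^(N' - N) s⁻¹ = R^(i - i')`, so `N' = N` (`not_conjW`,
`k ≥ 3`). So the set of the bad `N` is finite, and `ℕ` is infinite (`Set.Finite.exists_notMem` or
`Set.Infinite.exists_notMem_finite`). -/
theorem exists_N (hk : 3 ≤ k) {S X : Set (W k)} (hS : S.Finite) (hX : X.Finite) :
    ∃ N : ℕ, ∀ s ∈ S, ∀ i : ℤ, RW k ^ i * (s * (xW 1 * xW 0) ^ N) ∉ X := by
  have hbad : {N : ℕ | ∃ s ∈ S, ∃ x ∈ X, ∃ i : ℤ,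
      RW k ^ i * (s * (xW 1 * xW 0) ^ N) = x}.Finite := by
    have h1 : {N : ℕ | ∃ s ∈ S, ∃ x ∈ X, ∃ i : ℤ, RW k ^ i * (s * (xW 1 * xW 0) ^ N) = x} =
        ⋃ s ∈ S, ⋃ x ∈ X, {N : ℕ | ∃ i : ℤ, RW k ^ i * (s * (xW 1 * xW 0) ^ N) = x} := by
      ext N; simp
    rw [h1]
    refine hS.biUnion fun s _ => hX.biUnion fun x _ => Set.Subsingleton.finite ?_
    rintro N ⟨i, hi⟩ N' ⟨i', hi'⟩
    have h2 : s * (xW 1 * xW 0 : W k) ^ ((N' : ℤ) - N) * s⁻¹ = RW k ^ (i - i') := by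
      have h3 : RW k ^ i * (s * (xW 1 * xW 0) ^ N) = RW k ^ i' * (s * (xW 1 * xW 0) ^ N') := by
        rw [hi, hi']
      have h4 : RW k ^ (-i') * (RW k ^ i * (s * (xW 1 * xW 0) ^ N)) = s * (xW 1 * xW 0) ^ N' := by
        rw [h3, ← mul_assoc, ← zpow_add, neg_add_cancel, zpow_zero, one_mul]
      rw [← mul_assoc, ← zpow_add] at h4
      rw [sub_eq_add_neg, zpow_add, zpow_neg, zpow_natCast, zpow_natCast, ← mul_assoc, ← h4,
        sub_eq_add_neg, add_comm i (-i')]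
      group
    have h5 := not_conjW hk h2
    omega
  obtain ⟨N, hN⟩ := hbad.exists_notMem
  exact ⟨N, fun s hs i hi => hN ⟨s, hs, _, hi, i, rfl⟩⟩

/-- piece SUP-Z2: the approximate conjugators -/
theorem exists_c (hk : 3 ≤ k) {κ : K k} {j : ℤ} (hj : j ≠ 0)
    (h : ∀ N : ℕ, ∃ l : L k, l * (κ.1 * rL k ^ j) * l⁻¹ =
      (de k ^ N : MulAut (L k)) (κ.1 * rL k ^ j)) {X : Set (W k)} (hX : X.Finite) :
    ∃ c : K k, κ * cr j c * c⁻¹ ∈ NT X := by
  obtain ⟨S, hS, hκS⟩ := exists_KS κ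
  obtain ⟨N, hN⟩ := exists_N hk hS hX
  obtain ⟨l, hl⟩ := h N
  have h1 : deK (by omega) N κ ∈ NT X := by
    refine KS_le (fun g hg => ?_) hκS
    obtain ⟨c, hc⟩ := deK_mu (by omega) N g
    rw [hc]
    exact Subgroup.Normal.conj_mem inferInstance _ (NT_mem (hN g hg)) _
  have h2 : toW k l ∈ Subgroup.zpowers (RW k) := by
    apply centW (by omega) hj
    have h3 := congrArg (toW k) hl
    rw [toW_de_pow (by omega), map_mul, map_mul, map_mul, map_inv, map_zpow, toW_r,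
      mem_K.1 κ.2, one_mul, mul_inv_eq_iff_eq_mul] at h3
    exact h3
  obtain ⟨i, hi⟩ := Subgroup.mem_zpowers_iff.1 h2
  have h3 : l * (rL k ^ i)⁻¹ ∈ K k := by
    rw [mem_K, map_mul, map_inv, map_zpow, toW_r, hi, mul_inv_cancel]
  obtain ⟨l', hl'⟩ : ∃ l' : K k, l = l'.1 * rL k ^ i := ⟨⟨_, h3⟩, by
    change l = l * (rL k ^ i)⁻¹ * rL k ^ i
    rw [inv_mul_cancel_right]⟩
  have h4 : deK (by omega) N κ = l' * cr i κ * cr j l'⁻¹ := by
    apply Subtype.ext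
    change (de k ^ N : MulAut (L k)) κ.1 = l'.1 * (cr i κ).1 * (cr j l'⁻¹).1
    rw [cr_coe, cr_coe]
    rw [hl', map_mul, map_zpow, de_pow_r] at hl
    have h5 := eq_mul_inv_of_mul_eq hl.symm
    rw [h5]
    change _ = l'.1 * (rL k ^ i * κ.1 * (rL k ^ i)⁻¹) * (rL k ^ j * (l'.1)⁻¹ * (rL k ^ j)⁻¹)
    have hc' : rL k ^ j * (rL k ^ i)⁻¹ = (rL k ^ i)⁻¹ * rL k ^ j := by
      rw [← zpow_neg, ← zpow_add, ← zpow_add, add_comm j (-i)]
    calc l'.1 * rL k ^ i * (κ.1 * rL k ^ j) * (l'.1 * rL k ^ i)⁻¹ * (rL k ^ j)⁻¹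
        = l'.1 * rL k ^ i * κ.1 * (rL k ^ j * (rL k ^ i)⁻¹) * (l'.1)⁻¹ * (rL k ^ j)⁻¹ := by group
      _ = _ := by rw [hc']; group
  rw [h4] at h1
  have h5 := NT_cr (-i) h1
  rw [map_mul, map_mul, cr_neg] at h5
  have e : cr (-i) (cr j l'⁻¹) = cr j (cr (-i) l'⁻¹) := by
    rw [← cr_add, ← cr_add, add_comm (-i) j]
  refine ⟨(cr (-i) l')⁻¹, ?_⟩
  have h6 := Subgroup.Normal.conj_mem (inferInstance : (NT X).Normal) _ h5 (cr (-i) l')⁻¹
  rw [e] at h6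
  have e2 : (cr (-i) l')⁻¹ * (cr (-i) l' * κ * cr j (cr (-i) l'⁻¹)) * ((cr (-i) l')⁻¹)⁻¹ =
      κ * cr j (cr (-i) l')⁻¹ * ((cr (-i) l')⁻¹)⁻¹ := by
    rw [map_inv (cr (-i))]
    group
  rw [e2] at h6
  exact h6

end Pool.Agent.Helper7.DN
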